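import Mathlib
import Pool.Agent.Lib.MP_7af27d_pr.ZeroOne

/-!
A continuous function with finite-dimensional orbit span whose increments along a symmetric adapted
random walk tend to zero with positive probability is constant.
-/

namespace Pool.Agent.Results.MP_7af27d_pr.PositiveProbability

open MeasureTheory ProbabilityTheory Filter Topology Pool.Agent.Lib.MP_7af27d_pr
open scoped Pointwise

theorem result {G : Type*} [Group G] [TopologicalSpace G] [IsTopologicalGroup G]
    [MeasurableSpace G] [BorelSpace G] (μ : Measure G) [IsProbabilityMeasure μ]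
    (hadapt : ∀ H : Subgroup G, IsClosed (H : Set G) → μ H = 1 → H = ⊤)
    (hsymm : ∀ A : Set G, MeasurableSet A → μ A = μ A⁻¹)
    {Ω : Type*} [MeasurableSpace Ω] (P : Measure Ω) [IsProbabilityMeasure P]
    (U : ℕ → Ω → G) (hind : iIndepFun U P) (hlaw : ∀ t, HasLaw (U t) μ P)
    (X : ℕ → Ω → G) (hX0 : ∀ ω, X 0 ω = 1) (hX : ∀ t ω, X (t + 1) ω = X t ω * U t ω)
    (f : G → ℝ) (hf : Continuous f)
    (hconv : 0 < P {ω | Tendsto (fun t => f (X (t + 1) ω) - f (X t ω)) atTop (𝓝 0)})
    (hfin : FiniteDimensional ℝ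
      (Submodule.span ℝ (Set.range fun γ : G => fun x : G => f (γ⁻¹ * x)))) :
    ∀ x y : G, f x = f y := by
  classical
  set V := Submodule.span ℝ (Set.range fun γ : G => fun x : G => f (γ⁻¹ * x)) with hV
  have hXw : ∀ t ω, X t ω = walk (fun i => U i ω) t := by
    intro t ω
    induction t with
    | zero => exact hX0 ω
    | succ t ih => rw [hX, ih]; rfl
  have hVcont : ∀ h ∈ V, Continuous h := by
    intro h hh
    induction hh using Submodule.span_induction with
    | mem h hh =>
      obtain ⟨γ, rfl⟩ := hh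
      fun_prop
    | zero => exact continuous_const
    | add a b _ _ ha hb => exact ha.add hb
    | smul c a _ ha => exact ha.const_smul c
  have hVinv : ∀ x : G, ∀ h ∈ V, (fun y => h (x * y)) ∈ V := by
    intro x h hh
    induction hh using Submodule.span_induction with
    | mem h hh =>
      obtain ⟨γ, rfl⟩ := hh
      refine Submodule.subset_span ⟨x⁻¹ * γ, ?_⟩
      funext y
      simp [mul_assoc]
    | zero => exact V.zero_mem
    | add a b _ _ ha hb => exact V.add_mem ha hb
    | smul c a _ ha => exact V.smul_mem c ha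
  let b := Module.finBasis ℝ V
  let e : G → Fin (Module.finrank ℝ V) → ℝ := fun y i => (b i : G → ℝ) y
  have hrepr : ∀ (h : V) (y : G), (h : G → ℝ) y = ∑ i, b.repr h i * e y i := by
    intro h y
    have := congrArg V.subtype (b.sum_repr h)
    rw [map_sum] at this
    have h2 := congrFun this y
    rw [Finset.sum_apply] at h2
    exact h2.symm
  have hspan : Submodule.span ℝ (Set.range e) = ⊤ := by
    by_contra hne
    obtain ⟨φ, hφ0, hφ⟩ := Submodule.exists_le_ker_of_lt_top _ (lt_top_iff_ne_top.2 hne)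
    apply hφ0
    let c : Fin (Module.finrank ℝ V) → ℝ := fun i => φ fun j => if i = j then 1 else 0
    have hc : b.equivFun.symm c = 0 := by
      apply Subtype.ext
      funext y
      rw [hrepr]
      have h1 : φ (e y) = 0 := hφ (Submodule.subset_span ⟨y, rfl⟩)
      rw [LinearMap.pi_apply_eq_sum_univ] at h1
      refine Eq.trans (Finset.sum_congr rfl fun i _ => ?_) h1
      rw [← b.equivFun_apply, LinearEquiv.apply_symm_apply, smul_eq_mul, mul_comm]
    have hc0 : c = 0 := b.equivFun.symm.injective (hc.trans (map_zero _).symm)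
    apply LinearMap.ext
    intro v
    rw [LinearMap.pi_apply_eq_sum_univ]
    refine Finset.sum_eq_zero fun i _ => ?_
    have : c i = 0 := congrFun hc0 i
    simp only [c] at this
    rw [this, smul_zero]
  have hex : ∀ x : G, ∃ A : (Fin (Module.finrank ℝ V) → ℝ) →L[ℝ] (Fin (Module.finrank ℝ V) → ℝ),
      ∀ y, A (e y) = e (x * y) := by
    intro x
    refine ⟨LinearMap.toContinuousLinearMap (Matrix.mulVecLin (Matrix.of fun i j =>
      b.repr ⟨fun y => (b i : G → ℝ) (x * y), hVinv x _ (b i).2⟩ j)), fun y => ?_⟩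
    funext i
    exact (hrepr ⟨fun y => (b i : G → ℝ) (x * y), hVinv x _ (b i).2⟩ y).symm
  choose A hA using hex
  have hext : ∀ B B' : (Fin (Module.finrank ℝ V) → ℝ) →L[ℝ] (Fin (Module.finrank ℝ V) → ℝ),
      (∀ y, B (e y) = B' (e y)) → B = B' := by
    intro B B' h
    apply ContinuousLinearMap.coe_injective
    apply LinearMap.ext_on_range hspan
    exact h
  let ρ : G →* ((Fin (Module.finrank ℝ V) → ℝ) →L[ℝ] (Fin (Module.finrank ℝ V) → ℝ)) :=
    { toFun := A
      map_one' := hext _ _ fun y => by rw [hA, one_mul]; rfl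
      map_mul' := fun x x' => hext _ _ fun y => by
        change A (x * x') (e y) = A x (A x' (e y))
        rw [hA, hA, hA, mul_assoc] }
  have hecont : Continuous e := continuous_pi fun i => hVcont _ (b i).2
  have hρ : Continuous ρ := by
    rw [continuous_clm_apply]
    intro v
    have hv : v ∈ Submodule.span ℝ (Set.range e) := hspan ▸ Submodule.mem_top
    induction hv using Submodule.span_induction with
    | mem v hv =>
      obtain ⟨y, rfl⟩ := hv
      have : (fun x => ρ x (e y)) = fun x => e (x * y) := funext fun x => hA x y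
      rw [this]
      fun_prop
    | zero => simpa using continuous_const
    | add u v _ _ hu hv =>
      simp only [map_add]
      exact hu.add hv
    | smul c u _ hu =>
      simp only [map_smul]
      exact hu.const_smul c
  have hρe : ∀ x, ρ x (e 1) = e x := fun x => (hA x 1).trans (by rw [mul_one])
  have hsymm' : μ.map (fun g => g⁻¹) = μ := by
    ext A hA
    rw [Measure.map_apply measurable_inv hA, hsymm A hA]
    rfl
  have hfV : f ∈ V := Submodule.subset_span ⟨1, by simp⟩
  obtain ⟨φ, hφ⟩ : ∃ φ : (Fin (Module.finrank ℝ V) → ℝ) →L[ℝ] ℝ, ∀ y, φ (e y) = f y :=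
    ⟨∑ i, b.repr ⟨f, hfV⟩ i • ContinuousLinearMap.proj i, fun y => by
      refine Eq.trans ?_ (hrepr ⟨f, hfV⟩ y).symm
      simp⟩
  have hconv' : ∀ x : G, ∀ᵐ ω ∂P,
      Tendsto (fun t => f (x * X (t + 1) ω) - f (x * X t ω)) atTop (𝓝 0) := by
    intro x
    have h1 := zero_one μ hadapt hind hlaw ρ hρ (e 1) φ (by
      simpa only [hρe, map_sub, hφ, hXw] using hconv.ne') x
    have h2 : ∀ y, ρ x (e y) = e (x * y) := hA x
    simpa only [hρe, map_sub, h2, hφ, hXw] using h1
  have hVconv : ∀ h ∈ V, ∀ᵐ ω ∂P,
      Tendsto (fun t => h (X (t + 1) ω) - h (X t ω)) atTop (𝓝 0) := by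
    intro h hh
    induction hh using Submodule.span_induction with
    | mem h hh =>
      obtain ⟨γ, rfl⟩ := hh
      exact hconv' γ⁻¹
    | zero => exact Eventually.of_forall fun ω => by simp
    | add a b _ _ ha hb =>
      filter_upwards [ha, hb] with ω hl hl'
      have := hl.add hl'
      rw [add_zero] at this
      exact this.congr fun t => by simp only [Pi.add_apply]; ring
    | smul c a _ ha =>
      filter_upwards [ha] with ω hl
      have := hl.const_mul c
      rw [mul_zero] at this
      exact this.congr fun t => by simp only [Pi.smul_apply, smul_eq_mul]; ring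
  have hfix := fixed_of_walk μ hadapt hsymm' hind hlaw ρ hρ (e 1) (by
    filter_upwards [ae_all_iff.2 fun i => hVconv _ (b i).2] with ω hω
    have h1 : Tendsto (fun t => e (X (t + 1) ω) - e (X t ω)) atTop (𝓝 0) := tendsto_pi_nhds.2 hω
    simpa only [hρe, hXw] using h1)
  intro x y
  have h1 := hrepr ⟨f, hfV⟩ x
  have h2 := hrepr ⟨f, hfV⟩ y
  rw [← hρe x, hfix] at h1
  rw [← hρe y, hfix] at h2
  exact h1.trans h2.symm

/-- The posed question: almost sure convergence from every starting point is a special case. -/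
theorem posed_question {G : Type*} [Group G] [TopologicalSpace G] [IsTopologicalGroup G]
    [MeasurableSpace G] [BorelSpace G] (μ : Measure G) [IsProbabilityMeasure μ]
    (hadapt : ∀ H : Subgroup G, IsClosed (H : Set G) → μ H = 1 → H = ⊤)
    (hsymm : ∀ A : Set G, MeasurableSet A → μ A = μ A⁻¹)
    {Ω : Type*} [MeasurableSpace Ω] (P : Measure Ω) [IsProbabilityMeasure P]
    (U : ℕ → Ω → G) (hind : iIndepFun U P) (hlaw : ∀ t, HasLaw (U t) μ P)
    (X : ℕ → Ω → G) (hX0 : ∀ ω, X 0 ω = 1) (hX : ∀ t ω, X (t + 1) ω = X t ω * U t ω)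
    (f : G → ℝ) (hf : Continuous f)
    (hconv : ∀ x : G, ∀ᵐ ω ∂P, ∃ l : ℝ, Tendsto (fun t => f (x * X t ω)) atTop (𝓝 l))
    (hfin : FiniteDimensional ℝ
      (Submodule.span ℝ (Set.range fun γ : G => fun x : G => f (γ⁻¹ * x)))) :
    ∀ x y : G, f x = f y := by
  refine result μ hadapt hsymm P U hind hlaw X hX0 hX f hf ?_ hfin
  have h : ∀ᵐ ω ∂P, Tendsto (fun t => f (X (t + 1) ω) - f (X t ω)) atTop (𝓝 0) := by
    filter_upwards [hconv 1] with ω ⟨l, hl⟩
    simp only [one_mul] at hl
    simpa using ((tendsto_add_atTop_iff_nat (f := fun t => f (X t ω)) 1).2 hl).sub hl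
  exact pos_iff_ne_zero.2 (frequently_ae_iff.1 h.frequently)

end Pool.Agent.Results.MP_7af27d_pr.PositiveProbability
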